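import Pool.Agent.WAX.Stmts
import Pool.Agent.Helper38_WAT.ABR
import Pool.Agent.Helper20_PP.Nls
import Pool.Agent.Helper75_PP.Quo

/-!
# Squad WAX, row LNW: the reduction to `C_V(T) = 1`
-/

open scoped BigOperators

noncomputable section

namespace Pool.Agent.PP.TX.H84

open Pool.Agent.Helper51_AWC Pool.Agent.Helper79_WRA Pool.Agent.PP Pool.Agent.PP.KF
open Pool.Agent.PP.K9 Pool.Agent.PP.K9.H97 Pool.Agent.PP.H75 Pool.Agent.PP.T3 Pool.Agent.PP.T2
open Pool.Agent.PP.T5 Pool.Agent.PP.TB Pool.Agent.PP.TV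
open Pool.Agent.PP.T8 (Rv Fq Fr Ei Hk Rk Fd In Fe)

attribute [local instance] Ideal.Quotient.field

/-- a block with a central element of its defect group: the quotient -/
theorem step (hPsg : T3.PsgStmt) (hPug : K9.PugStmt) (hQt : T8.Qt3Stmt) (hFqt : T8.FqtStmt)
    {ℓ : ℕ} [hℓ : Fact ℓ.Prime] (M : Ideal (integralClosure ℤ ℂ)) [M.IsMaximal]
    (hM : (ℓ : integralClosure ℤ ℂ) ∈ M) {C : Type} [Group C] [Finite C] {e : C → FF M}
    {V : Subgroup C} {γ : C → FF M} (hL : Ld ℓ e V γ) {z : C} (hzV : z ∈ V) (hz1 : z ≠ 1)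
    (hz : ∀ x : C, x * z = z * x) :
    ∃ (A : Type) (_ : Group A) (_ : Finite A) (f : A → FF M) (V' : Subgroup A) (γ' : A → FF M),
      Nat.card A < Nat.card C ∧ Ld ℓ f V' γ' ∧ ln f = ln e ∧ Fq V γ V' γ' := by
  have hF : GoodF ℓ (FF M) := H50.fld ℓ Fact.out M hM
  let Q : Subgroup C := Subgroup.zpowers z
  have hQV : Q ≤ V := by
    rw [Subgroup.zpowers_le]
    exact hzV
  have hQc : Q ≤ Subgroup.center C := by
    rw [Subgroup.zpowers_le, Subgroup.mem_center_iff]
    exact hz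
  have hQn : Q.Normal := by
    refine ⟨fun x hx g => ?_⟩
    have h1 := Subgroup.mem_center_iff.1 (hQc hx) g
    rw [h1, mul_inv_cancel_right]
    exact hx
  let p : C →* C ⧸ Q := QuotientGroup.mk' Q
  have hp : Function.Surjective p := QuotientGroup.mk'_surjective Q
  have hker : p.ker = Q := QuotientGroup.ker_mk' Q
  have hk : IsPGroup ℓ p.ker := by
    rw [hker]
    exact hL.tp.pg.to_le hQV
  have hblk : IsBlk (push p e) :=
    hPsg ℓ (FF M) hF C (C ⧸ Q) p hp (hker.le.trans hQc) hk _ hL.blk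
  have hkV : p.ker ≤ V := by
    rw [hker]
    exact hQV
  have hcm : (V.map p).comap p = V := Subgroup.comap_map_eq_self hkV
  have hVc : Nat.card V = Nat.card p.ker * Nat.card (V.map p) := by
    have h1 := card_comap hp (V.map p)
    rw [hcm] at h1
    exact h1
  have hkpos : 0 < Nat.card p.ker := Nat.card_pos
  have htp' : Tp ℓ (push p e) (V.map p) := by
    refine ⟨hL.tp.pg.map p, ?_, ?_⟩
    · exact (hPug ℓ (FF M) hF C (C ⧸ Q) p hp hk _ hL.blk.1 _ hkV hL.tp.pg).1 hL.tp.gd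
    · intro R hR hg
      have h1 : IsPGroup ℓ (R.comap p) := (isPGroup_comap_iff hp hk R).2 hR
      have h2 : (R.comap p).map p = R := Subgroup.map_comap_eq_self_of_surjective hp R
      have h3 : Gd e (R.comap p) := by
        refine (hPug ℓ (FF M) hF C (C ⧸ Q) p hp hk _ hL.blk.1 _
          (Subgroup.ker_le_comap p R) h1).2 ?_
        rw [h2]
        exact hg
      have h4 := hL.tp.mx _ h1 h3
      rw [card_comap hp, hVc] at h4
      exact Nat.le_of_mul_le_mul_left h4 hkpos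
  -- the normaliser of `Q`
  obtain ⟨q, hq⟩ : ∃ q : Subgroup.normalizer (Q : Set C) →* C ⧸ Q,
      q = p.comp (Subgroup.normalizer (Q : Set C)).subtype := ⟨_, rfl⟩
  have hnt : Subgroup.normalizer (Q : Set C) = ⊤ := Subgroup.normalizer_eq_top Q
  have hqs : Function.Surjective q := by
    intro y
    obtain ⟨x, hx⟩ := hp y
    refine ⟨⟨x, hnt ▸ Subgroup.mem_top x⟩, ?_⟩
    rw [hq]
    exact hx
  have hqk : q.ker = Q.subgroupOf (Subgroup.normalizer (Q : Set C)) := by
    ext x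
    rw [MonoidHom.mem_ker, Subgroup.mem_subgroupOf, hq]
    have h3 : (x : C) ∈ p.ker ↔ (x : C) ∈ Q := by rw [hker]
    rw [← h3, MonoidHom.mem_ker]
    rfl
  have hbr : br Q e = e := by
    funext t
    unfold br
    rw [if_pos]
    rw [Subgroup.mem_centralizer_iff]
    intro y hy
    exact (Subgroup.mem_center_iff.1 (hQc hy) t).symm
  have hpq : push q (fun t : Subgroup.normalizer (Q : Set C) => br Q e t) = push p e := by
    classical
    have := Fintype.ofFinite C
    have := Fintype.ofFinite (Subgroup.normalizer (Q : Set C))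
    rw [hbr]
    funext y
    rw [push_eq, push_eq]
    refine Fintype.sum_bijective
      (fun x : Subgroup.normalizer (Q : Set C) => (x : C))
      ⟨Subtype.val_injective, fun g => ⟨⟨g, hnt ▸ Subgroup.mem_top g⟩, rfl⟩⟩ _ _ fun x => ?_
    rw [hq]
    rfl
  have hmap : (V.subgroupOf (Subgroup.normalizer (Q : Set C))).map q = V.map p := by
    ext y
    constructor
    · rintro ⟨x, hx, rfl⟩
      rw [hq]
      exact ⟨x, Subgroup.mem_subgroupOf.1 hx, rfl⟩
    · rintro ⟨x, hx, rfl⟩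
      refine ⟨⟨x, hnt ▸ Subgroup.mem_top x⟩, Subgroup.mem_subgroupOf.2 hx, ?_⟩
      rw [hq]
      rfl
  obtain ⟨γ', hV', hFe⟩ := hQt ℓ M hM C e V γ hL Q hQV (C ⧸ Q) q hqs hqk (push p e)
    hblk (by rw [hpq]; exact hblk.1.2) (by rw [hmap]; exact htp')
  have hFq := (hFqt ℓ (FF M) hF C e V γ hL).2.2.2 Q hQV (C ⧸ Q) q γ' hFe
  rw [hmap] at hV' hFq
  refine ⟨C ⧸ Q, inferInstance, inferInstance, push p e, V.map p, γ', ?_, hV', ?_, hFq⟩
  · have h1 : Nat.card C = Nat.card (C ⧸ Q) * Nat.card Q := Subgroup.card_eq_card_quotient_mul_card_subgroup Q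
    have h2 : 1 < Nat.card Q := by
      rw [Subgroup.one_lt_card_iff_ne_bot]
      intro h0
      apply hz1
      have : z ∈ Q := Subgroup.mem_zpowers z
      rw [h0] at this
      exact Subgroup.mem_bot.1 this
    have h3 : 0 < Nat.card (C ⧸ Q) := Nat.card_pos
    rw [h1]
    exact lt_mul_of_one_lt_right h3 h2
  · exact (cnt_push H20.nls hF hp hk _).symm

/-- LNW -/
theorem lnw (hW : TV.WatStmt) (hLoc : T3.LocStmt) (hLsb : T3.LsbStmt) (hPsg : T3.PsgStmt)
    (hQt : T8.Qt3Stmt) (hFqt : T8.FqtStmt) (hPug : K9.PugStmt) : LnwStmt := by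
  intro ℓ hℓ M _ hM
  have hF : GoodF ℓ (FF M) := H50.fld ℓ Fact.out M hM
  suffices hmain : ∀ n : ℕ, ∀ (G : Type) [Group G] [Finite G], Nat.card G = n →
      ∀ (e : G → FF M) (V : Subgroup G) (γ : G → FF M), Ld ℓ e V γ →
      ∃ (A : Type) (_ : Group A) (_ : Finite A) (f : A → FF M) (V' : Subgroup A)
        (γ' : A → FF M), Ld ℓ f V' γ' ∧ ln f = ln e ∧ Fq V γ V' γ' ∧ Zf V' γ' = ⊥ by
    intro G _ _ e V γ h
    exact hmain _ G rfl e V γ h
  intro n
  induction n using Nat.strong_induction_on with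
  | _ n ih =>
  intro G _ _ hn e V γ hL
  by_cases hZ : Zf V γ = ⊥
  · refine ⟨G, inferInstance, inferInstance, e, V, γ, hL, rfl, ?_, hZ⟩
    refine ⟨MonoidHom.id _, Function.surjective_id, ?_⟩
    intro t' ht'
    exact ⟨t', ht', fun v w hvw => hvw⟩
  · obtain ⟨z, hz, hz1⟩ : ∃ z ∈ Zf V γ, z ≠ 1 := by
      by_contra hcon
      push Not at hcon
      exact hZ ((Subgroup.eq_bot_iff_forall _).2 hcon)
    have hzV : z ∈ V := hz.1
    obtain ⟨⟨b, hb⟩, -⟩ := hLoc ℓ (FF M) hF G e V γ hL z hzV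
    have hWz := hW ℓ M hM G e V γ hL z hz b hb
    have hVC : V ≤ Cu z := fun v hv => Subgroup.mem_centralizer_singleton_iff.2
      (hL.ab v hv z hzV)
    have hCC : Subgroup.centralizer (V : Set G) ≤ Cu z := fun g hg =>
      Subgroup.mem_centralizer_singleton_iff.2
        (Subgroup.mem_centralizer_iff.1 hg z hzV).symm
    have hLC := (hLsb ℓ M hM G e V γ hL z hzV b hb).1
    have hfq := TV.H38.fq_sub hVC hCC hL.gam.supp
    have hzC : (⟨z, hVC hzV⟩ : Cu z) ∈ V.subgroupOf (Cu z) := hzV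
    have hz1C : (⟨z, hVC hzV⟩ : Cu z) ≠ 1 := fun h => hz1 (congrArg Subtype.val h)
    obtain ⟨A, _, _, f, V', γ', hlt, hA, hln, hfq'⟩ := step hPsg hPug hQt hFqt M hM hLC hzC hz1C
      (fun x => Subtype.ext (Subgroup.mem_centralizer_singleton_iff.1 x.2))
    have hlt' : Nat.card A < n := by
      rw [← hn]
      exact lt_of_lt_of_le hlt (Subgroup.card_le_card_group _)
    obtain ⟨B, _, _, f', V'', γ'', hB, hln', hfq'', hZ'⟩ := ih (Nat.card A) hlt' A rfl f V' γ' hA
    refine ⟨B, inferInstance, inferInstance, f', V'', γ'', hB, ?_, ?_, hZ'⟩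
    · rw [hln', hln, hWz]
    · have h1 := (hFqt ℓ (FF M) hF G e V γ hL).1 (Cu z) A (V.subgroupOf (Cu z))
        (fun t : Cu z => γ t) V' γ' hfq hfq'
      exact (hFqt ℓ (FF M) hF G e V γ hL).1 A B V' γ' V'' γ'' h1 hfq''

end Pool.Agent.PP.TX.H84
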